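import Mathlib

/-!
# Induced matchings made of translates: the group part

`Γ` is a finite group of order `n`, `S ⊆ Γ`, and for every `s ∈ S` there is a set `X s ⊆ Γ` with more than
`m n / (k m + 1)` elements such that `x s' ≠ y s` for `x, y ∈ X s`, `s' ∈ S`, `s' ≠ s`.
-/

namespace Pool.Agent.H22.TRS

open Finset
open scoped Pointwise

variable {Γ : Type*} [Group Γ] [DecidableEq Γ]

/-- right translate -/
def tr (X : Finset Γ) (g : Γ) : Finset Γ := X.image (fun x => x * g)

theorem mem_tr {X : Finset Γ} {g y : Γ} : y ∈ tr X g ↔ y * g⁻¹ ∈ X := by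
  unfold tr
  rw [mem_image]
  constructor
  · rintro ⟨x, hx, rfl⟩
    rwa [mul_inv_cancel_right]
  · intro h
    exact ⟨_, h, by rw [inv_mul_cancel_right]⟩

theorem card_tr (X : Finset Γ) (g : Γ) : (tr X g).card = X.card :=
  card_image_of_injective _ (mul_left_injective g)

theorem card_tr_sdiff (X : Finset Γ) (u v : Γ) : (tr X u \ tr X v).card = (X \ tr X (v * u⁻¹)).card := by
  rw [← card_tr (X \ tr X (v * u⁻¹)) u]
  congr 1
  ext y
  rw [mem_sdiff, mem_tr, mem_tr, mem_tr, mem_sdiff, mem_tr]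
  simp [mul_assoc]

/-- `S` is the set of directions; the relation between a direction and its set `X` -/
def Ind (S : Finset Γ) (s : Γ) (X : Finset Γ) : Prop :=
  ∀ x ∈ X, ∀ y ∈ X, ∀ s' ∈ S, s' ≠ s → x * s' ≠ y * s

/-- `T` is a clique of translations over `A`. -/
structure Str (S T A : Finset Γ) : Prop where
  one : (1 : Γ) ∉ T
  sub : A ⊆ S
  mem : ∀ g ∈ T, ∀ s ∈ A, g * s ∈ S
  pair : ∀ g ∈ T, ∀ h ∈ T, g ≠ h → (∀ s ∈ A, g * h⁻¹ * s ∈ S) ∨ (∀ s ∈ A, h * g⁻¹ * s ∈ S)

omit [DecidableEq Γ] in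
theorem Str.mono {S T A A' : Finset Γ} (h : Str S T A) (hA : A' ⊆ A) : Str S T A' :=
  ⟨h.one, hA.trans h.sub, fun g hg s hs => h.mem g hg s (hA hs), fun g hg g' hg' hne =>
    (h.pair g hg g' hg' hne).imp (fun k s hs => k s (hA hs)) (fun k s hs => k s (hA hs))⟩

/-- the translates of `X` by the elements of `T` and by `(b s⁻¹)⁻¹` -/
theorem card_bound [Fintype Γ] {S T A : Finset Γ} (h : Str S T A) {s b b' : Γ} (hs : s ∈ A)
    (hb : b ∈ A) (hbs : b ≠ s) (hb' : b' ∈ A) (hbs' : b' ≠ s)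
    (hfree : ∀ g ∈ T, g * b ≠ s) (hfree' : ∀ g ∈ T, g * b' ≠ s) {X : Finset Γ} (hX : Ind S s X) :
    (X \ tr X (s * (b'⁻¹ * b) * s⁻¹)).card + (T.card + 2) * X.card ≤ Fintype.card Γ := by
  have key : ∀ c ∈ A, c ≠ s → (∀ g ∈ T, g * c ≠ s) →
      Disjoint (tr X (s * c⁻¹)) X ∧ ∀ g ∈ T, Disjoint (tr X (s * c⁻¹)) (tr X g) := by
    intro c hc hcs hcf
    constructor
    · rw [disjoint_left]
      intro y hy hy'
      rw [mem_tr] at hy
      apply hX y hy' _ hy c (h.sub hc) hcs
      group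
    · intro g hg
      rw [disjoint_left]
      intro y hy hy'
      rw [mem_tr] at hy hy'
      apply hX _ hy' _ hy (g * c) (h.mem g hg c hc) (hcf g hg)
      group
  have h1 : ∀ g ∈ T, Disjoint X (tr X g) := by
    intro g hg
    rw [disjoint_left]
    intro y hy hy'
    rw [mem_tr] at hy'
    apply hX _ hy' y hy (g * s) (h.mem g hg s hs)
    · intro h2
      have : g = 1 := by
        have h3 : g * s = 1 * s := by rw [h2, one_mul]
        exact mul_right_cancel h3
      exact h.one (this ▸ hg)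
    · group
  have h2 : ∀ g ∈ T, ∀ g' ∈ T, g ≠ g' → Disjoint (tr X g) (tr X g') := by
    intro g hg g' hg' hne
    rw [disjoint_left]
    intro y hy hy'
    rw [mem_tr] at hy hy'
    rcases h.pair g hg g' hg' hne with h3 | h3
    · apply hX _ hy _ hy' (g * g'⁻¹ * s) (h3 s hs)
      · intro h4
        apply hne
        have h5 : g * g'⁻¹ = 1 := by
          have h6 : g * g'⁻¹ * s = 1 * s := by rw [h4, one_mul]
          exact mul_right_cancel h6
        exact mul_inv_eq_one.1 h5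
      · group
    · apply hX _ hy' _ hy (g' * g⁻¹ * s) (h3 s hs)
      · intro h4
        apply hne
        have h5 : g' * g⁻¹ = 1 := by
          have h6 : g' * g⁻¹ * s = 1 * s := by rw [h4, one_mul]
          exact mul_right_cancel h6
        exact (mul_inv_eq_one.1 h5).symm
      · group
  have hU : (T.biUnion fun g => tr X g).card = T.card * X.card := by
    rw [card_biUnion h2, sum_congr rfl (fun g _ => card_tr X g), sum_const, smul_eq_mul]
  obtain ⟨k1, k2⟩ := key b hb hbs hfree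
  obtain ⟨k1', k2'⟩ := key b' hb' hbs' hfree'
  have e : (X \ tr X (s * (b'⁻¹ * b) * s⁻¹)).card = (tr X (s * b⁻¹) \ tr X (s * b'⁻¹)).card := by
    rw [card_tr_sdiff]
    congr 3
    group
  have hd1 : Disjoint (tr X (s * b⁻¹) \ tr X (s * b'⁻¹)) X := k1.mono_left sdiff_subset
  have hd2 : Disjoint ((tr X (s * b⁻¹) \ tr X (s * b'⁻¹)) ∪ X) (tr X (s * b'⁻¹)) := by
    rw [disjoint_union_left]
    exact ⟨disjoint_sdiff_self_left, k1'.symm⟩
  have hd3 : Disjoint (((tr X (s * b⁻¹) \ tr X (s * b'⁻¹)) ∪ X) ∪ tr X (s * b'⁻¹))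
      (T.biUnion fun g => tr X g) := by
    rw [disjoint_biUnion_right]
    intro g hg
    rw [disjoint_union_left, disjoint_union_left]
    exact ⟨⟨(k2 g hg).mono_left sdiff_subset, h1 g hg⟩, k2' g hg⟩
  have h5 := card_le_univ ((((tr X (s * b⁻¹) \ tr X (s * b'⁻¹)) ∪ X) ∪ tr X (s * b'⁻¹)) ∪
    (T.biUnion fun g => tr X g))
  rw [card_union_of_disjoint hd3, card_union_of_disjoint hd2, card_union_of_disjoint hd1, hU,
    card_tr] at h5
  rw [e]
  linarith

/-- odd alternating words: no `s ∈ A` is an alternating product of length `2 l + 1`, `l ≤ m`, of other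
elements of `A` -/
def Odd' (m : ℕ) (A : Finset Γ) : Prop :=
  ∀ s ∈ A, ∀ l ≤ m, s ∉ (A.erase s) * ((A.erase s)⁻¹ * (A.erase s)) ^ l

theorem odd_of_str [Fintype Γ] {S T A : Finset Γ} (h : Str S T A) (m : ℕ)
    (hfree : ∀ g ∈ T, ∀ b ∈ A, ∀ s ∈ A, g * b ≠ s)
    (hX : ∀ s ∈ A, ∃ X : Finset Γ, Ind S s X ∧
      m * Fintype.card Γ < ((T.card + 2) * m + 1) * X.card) : Odd' m A := by
  intro s hs l hl hmem
  obtain ⟨X, hX1, hX2⟩ := hX s hs
  obtain ⟨b, hb, w, hw, hbw⟩ := Finset.mem_mul.1 hmem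
  -- bound for words
  have key : ∀ l : ℕ, ∀ w ∈ ((A.erase s)⁻¹ * (A.erase s)) ^ l,
      (X \ tr X (s * w * s⁻¹)).card + l * ((T.card + 2) * X.card) ≤ l * Fintype.card Γ := by
    intro l
    induction l with
    | zero =>
      intro w hw
      rw [pow_zero, Finset.mem_one] at hw
      subst hw
      have : X \ tr X (s * 1 * s⁻¹) = ∅ := by
        rw [sdiff_eq_empty_iff_subset]
        intro x hx
        rw [mem_tr]
        simpa using hx
      rw [this]
      simp
    | succ l ih =>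
      intro w hw
      rw [pow_succ] at hw
      obtain ⟨w1, hw1, w2, hw2, rfl⟩ := Finset.mem_mul.1 hw
      obtain ⟨c', hc', c, hc, rfl⟩ := Finset.mem_mul.1 hw2
      rw [Finset.mem_inv] at hc'
      obtain ⟨b', hb', rfl⟩ := hc'
      rw [mem_erase] at hb' hc
      have h1 := ih w1 hw1
      have h2 := card_bound h hs hc.2 hc.1 hb'.2 hb'.1 (fun g hg => hfree g hg c hc.2 s hs)
        (fun g hg => hfree g hg b' hb'.2 s hs) hX1
      have h3 : (X \ tr X (s * (w1 * (b'⁻¹ * c)) * s⁻¹)).card ≤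
          (X \ tr X (s * (b'⁻¹ * c) * s⁻¹)).card + (X \ tr X (s * w1 * s⁻¹)).card := by
        have e : (X \ tr X (s * w1 * s⁻¹)).card =
            (tr X (s * (b'⁻¹ * c) * s⁻¹) \ tr X (s * (w1 * (b'⁻¹ * c)) * s⁻¹)).card := by
          rw [card_tr_sdiff]
          congr 3
          group
        rw [e, ← card_union_of_disjoint]
        · apply card_le_card
          intro x hx
          rw [mem_sdiff] at hx
          rw [mem_union, mem_sdiff, mem_sdiff]
          by_cases h4 : x ∈ tr X (s * (b'⁻¹ * c) * s⁻¹)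
          · exact Or.inr ⟨h4, hx.2⟩
          · exact Or.inl ⟨hx.1, h4⟩
        · rw [disjoint_left]
          intro x hx hx'
          rw [mem_sdiff] at hx hx'
          exact hx.2 hx'.1
      nlinarith
  have hbA := mem_erase.1 hb
  have h1 := key l w hw
  have h2 : s * w * s⁻¹ = s * b⁻¹ := by
    rw [← hbw]
    group
  rw [h2] at h1
  have h3 : X \ tr X (s * b⁻¹) = X := by
    rw [Finset.sdiff_eq_self_iff_disjoint, disjoint_comm]
    rw [disjoint_left]
    intro y hy hy'
    rw [mem_tr] at hy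
    apply hX1 y hy' _ hy b (h.sub hbA.2) hbA.1
    group
  rw [h3] at h1
  have h4 := card_bound h hs hbA.2 hbA.1 hbA.2 hbA.1 (fun g hg => hfree g hg b hbA.2 s hs)
    (fun g hg => hfree g hg b hbA.2 s hs) hX1
  have h5 : (T.card + 2) * X.card ≤ Fintype.card Γ := by omega
  obtain ⟨r, rfl⟩ := Nat.exists_eq_add_of_le hl
  nlinarith

end Pool.Agent.H22.TRS
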