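import Pool.Agent.H22.TRS.Main

/-!
# Induced matchings of bipartite Cayley graphs
-/

namespace Pool.Agent.H22.TRS

open Finset

universe u

/-- The bipartite Cayley graph (Haar graph) of a finite subset `S` of a group `Γ`: the vertex set consists
of two copies of `Γ`, and `x` in the first copy is adjacent to `x s` in the second copy for `s ∈ S`. -/
def haar {Γ : Type u} [Group Γ] (S : Finset Γ) : SimpleGraph (Γ ⊕ Γ) where
  Adj u v := ∃ x : Γ, ∃ s ∈ S, (u = Sum.inl x ∧ v = Sum.inr (x * s)) ∨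
    (v = Sum.inl x ∧ u = Sum.inr (x * s))
  symm := ⟨by
    rintro u v ⟨x, s, hs, h | h⟩
    · exact ⟨x, s, hs, Or.inr h⟩
    · exact ⟨x, s, hs, Or.inl h⟩⟩
  loopless := ⟨by
    rintro u ⟨x, s, hs, ⟨h1, h2⟩ | ⟨h1, h2⟩⟩ <;> · rw [h1] at h2; cases h2⟩

/-- `M` is an induced matching of `G`: a set of edges of `G` such that for distinct `e, f ∈ M` an endpoint
of `e` and an endpoint of `f` are distinct and not adjacent in `G`. -/
def IsInducedMatching {V : Type u} (G : SimpleGraph V) (M : Finset (Sym2 V)) : Prop :=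
  (∀ e ∈ M, e ∈ G.edgeSet) ∧
    ∀ e ∈ M, ∀ f ∈ M, e ≠ f → ∀ x ∈ e, ∀ y ∈ f, x ≠ y ∧ ¬ G.Adj x y

/-- Every edge in `M` has the form `{(x, 0), (x s, 1)}` with `s ∈ D`. -/
def UsesDirections {Γ : Type u} [Group Γ] (M : Finset (Sym2 (Γ ⊕ Γ))) (D : Finset Γ) : Prop :=
  ∀ e ∈ M, ∃ x : Γ, ∃ s ∈ D, e = s(Sum.inl x, Sum.inr (x * s))

section
variable {Γ : Type u} [Group Γ] [Fintype Γ] [DecidableEq Γ]

/-- the starting points of the edges of `M` of direction `s` -/
def dirSet (M : Finset (Sym2 (Γ ⊕ Γ))) (s : Γ) : Finset Γ :=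
  univ.filter fun x => s(Sum.inl x, Sum.inr (x * s)) ∈ M

theorem mem_dirSet {M : Finset (Sym2 (Γ ⊕ Γ))} {s x : Γ} :
    x ∈ dirSet M s ↔ s(Sum.inl x, Sum.inr (x * s)) ∈ M := by
  unfold dirSet
  simp

omit [Group Γ] [Fintype Γ] [DecidableEq Γ] in
theorem sym2_inj {x y a b : Γ} (h : (s(Sum.inl x, Sum.inr a) : Sym2 (Γ ⊕ Γ)) = s(Sum.inl y, Sum.inr b)) :
    x = y ∧ a = b := by
  rw [Sym2.eq_iff] at h
  rcases h with ⟨h1, h2⟩ | ⟨h1, h2⟩
  · exact ⟨Sum.inl.inj h1, Sum.inr.inj h2⟩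
  · cases h1

omit [Fintype Γ] [DecidableEq Γ] in
theorem mem_of_edge {S : Finset Γ} {x a : Γ}
    (h : (s(Sum.inl x, Sum.inr a) : Sym2 (Γ ⊕ Γ)) ∈ (haar S).edgeSet) : x⁻¹ * a ∈ S := by
  rw [SimpleGraph.mem_edgeSet] at h
  obtain ⟨y, s, hs, ⟨h1, h2⟩ | ⟨h1, h2⟩⟩ := h
  · have e1 := Sum.inl.inj h1
    have e2 := Sum.inr.inj h2
    rw [e2, e1]
    simpa using hs
  · cases h1

theorem ind_dirSet {S : Finset Γ} {M : Finset (Sym2 (Γ ⊕ Γ))} (hM : IsInducedMatching (haar S) M)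
    (s : Γ) {S' : Finset Γ} (hS' : S' ⊆ S) : Ind S' s (dirSet M s) := by
  intro x hx y hy s' hs' hne heq
  rw [mem_dirSet] at hx hy
  have hxy : x ≠ y := by
    rintro rfl
    exact hne (mul_left_cancel heq)
  have hne' : (s(Sum.inl x, Sum.inr (x * s)) : Sym2 (Γ ⊕ Γ)) ≠ s(Sum.inl y, Sum.inr (y * s)) := by
    intro h
    exact hxy (sym2_inj h).1
  have h := hM.2 _ hx _ hy hne' (Sum.inl x) (Sym2.mem_mk_left _ _) (Sum.inr (y * s))
    (Sym2.mem_mk_right _ _)
  exact h.2 ⟨x, s', hS' hs', Or.inl ⟨rfl, by rw [heq]⟩⟩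

theorem exists_popular {M : Finset (Sym2 (Γ ⊕ Γ))} {D : Finset Γ} (h : UsesDirections M D) {q : ℕ}
    (hD : D.card ≤ q) (hM : M.Nonempty) : ∃ s ∈ D, M.card ≤ q * (dirSet M s).card := by
  classical
  have hcov : M ⊆ D.biUnion fun s => (dirSet M s).image fun x => s(Sum.inl x, Sum.inr (x * s)) := by
    intro e he
    obtain ⟨x, s, hs, rfl⟩ := h e he
    rw [mem_biUnion]
    exact ⟨s, hs, mem_image.2 ⟨x, mem_dirSet.2 he, rfl⟩⟩
  have hDne : D.Nonempty := by
    obtain ⟨e, he⟩ := hM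
    obtain ⟨x, s, hs, -⟩ := h e he
    exact ⟨s, hs⟩
  obtain ⟨s, hs, hmax⟩ := D.exists_max_image (fun s => (dirSet M s).card) hDne
  refine ⟨s, hs, ?_⟩
  calc M.card ≤ (D.biUnion fun s => (dirSet M s).image fun x => s(Sum.inl x, Sum.inr (x * s))).card :=
        card_le_card hcov
    _ ≤ ∑ s ∈ D, ((dirSet M s).image fun x => s(Sum.inl x, Sum.inr (x * s))).card := card_biUnion_le
    _ ≤ ∑ _s' ∈ D, (dirSet M s).card := sum_le_sum fun s' hs' => card_image_le.trans (hmax s' hs')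
    _ = D.card * (dirSet M s).card := by rw [sum_const, smul_eq_mul]
    _ ≤ q * (dirSet M s).card := Nat.mul_le_mul_right _ hD

/-- few matchings have the same popular direction -/
theorem fiber_bound {t : ℕ} {M : Fin t → Finset (Sym2 (Γ ⊕ Γ))}
    (hdis : ∀ i k, i ≠ k → Disjoint (M i) (M k)) (s : Γ) (I : Finset (Fin t)) {a : ℝ} (ha : 0 < a)
    (hI : ∀ i ∈ I, a * Fintype.card Γ ≤ (dirSet (M i) s).card) : (I.card : ℝ) ≤ 1 / a := by
  classical
  have h1 : (I.biUnion fun i => dirSet (M i) s).card = ∑ i ∈ I, (dirSet (M i) s).card := by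
    apply card_biUnion
    intro i _ k _ hik
    refine disjoint_left.2 ?_
    intro x hx hx'
    rw [mem_dirSet] at hx hx'
    exact (disjoint_left.1 (hdis i k hik)) hx hx'
  have h2 := card_le_univ (I.biUnion fun i => dirSet (M i) s)
  rw [h1] at h2
  have h3 : ∑ i ∈ I, a * (Fintype.card Γ : ℝ) ≤ Fintype.card Γ := by
    calc ∑ i ∈ I, a * (Fintype.card Γ : ℝ) ≤ ∑ i ∈ I, ((dirSet (M i) s).card : ℝ) := sum_le_sum hI
      _ = ((∑ i ∈ I, (dirSet (M i) s).card : ℕ) : ℝ) := by push_cast; rfl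
      _ ≤ Fintype.card Γ := by exact_mod_cast h2
  rw [sum_const, nsmul_eq_mul] at h3
  have hn : (0 : ℝ) < Fintype.card Γ := by
    exact_mod_cast (Fintype.card_pos : 0 < Fintype.card Γ)
  rw [le_div_iff₀ ha]
  by_contra hcon
  push Not at hcon
  nlinarith

end

/-- The main bound. -/
theorem translation_bound (j m q : ℕ) (hq : 1 ≤ q) (c : ℝ)
    (hc : (q : ℝ) * m / (2 * ((j + 2) * m + 1)) < c) :
    ∃ C : ℝ, ∀ (Γ : Type u) [Group Γ] [Fintype Γ] (S : Finset Γ) (t : ℕ)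
      (M : Fin t → Finset (Sym2 (Γ ⊕ Γ))) (D : Fin t → Finset Γ),
      (∀ i, IsInducedMatching (haar S) (M i)) → (∀ i k, i ≠ k → Disjoint (M i) (M k)) →
      (∀ i, c * (2 * Fintype.card Γ) ≤ (M i).card) →
      (∀ i, (D i).card ≤ q ∧ UsesDirections (M i) (D i)) →
      (t : ℝ) ≤ C * (2 * Fintype.card Γ : ℝ) ^ (1 - ((m : ℝ) / (m + 1)) / 2 ^ j) := by
  classical
  obtain ⟨C, hC, hmain⟩ := directions.{u} j m
  have hc0 : 0 < c := lt_of_le_of_lt (by positivity) hc
  have hq0 : (0 : ℝ) < q := by exact_mod_cast hq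
  refine ⟨q / (2 * c) * C, fun Γ _ _ S t M D hM hdis hcard hD => ?_⟩
  have hn : (0 : ℝ) < Fintype.card Γ := by
    exact_mod_cast (Fintype.card_pos : 0 < Fintype.card Γ)
  have hne : ∀ i, (M i).Nonempty := by
    intro i
    rw [← card_pos]
    have h1 : (0 : ℝ) < (M i).card := lt_of_lt_of_le (by positivity) (hcard i)
    exact_mod_cast h1
  have hpop : ∀ i, ∃ s ∈ D i, (M i).card ≤ q * (dirSet (M i) s).card :=
    fun i => exists_popular (hD i).2 (hD i).1 (hne i)
  choose σ hσ hσ' using hpop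
  have hσc : ∀ i, 2 * c / q * Fintype.card Γ ≤ (dirSet (M i) (σ i)).card := by
    intro i
    have h1 : ((M i).card : ℝ) ≤ q * (dirSet (M i) (σ i)).card := by exact_mod_cast hσ' i
    have h2 := hcard i
    rw [div_mul_eq_mul_div, div_le_iff₀ hq0]
    linarith
  set S' : Finset Γ := univ.image σ with hS'
  have hS'S : S' ⊆ S := by
    intro s hs
    rw [hS', mem_image] at hs
    obtain ⟨i, -, rfl⟩ := hs
    have h1 : (0 : ℝ) < (dirSet (M i) (σ i)).card := lt_of_lt_of_le (by positivity) (hσc i)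
    have h2 : (dirSet (M i) (σ i)).Nonempty := by
      rw [← card_pos]
      exact_mod_cast h1
    obtain ⟨x, hx⟩ := h2
    rw [mem_dirSet] at hx
    have h3 := mem_of_edge ((hM i).1 _ hx)
    rwa [inv_mul_cancel_left] at h3
  have hX : ∀ s ∈ S', ∃ X : Finset Γ, Ind S' s X ∧
      m * Fintype.card Γ < ((j + 2) * m + 1) * X.card := by
    intro s hs
    rw [hS', mem_image] at hs
    obtain ⟨i, -, rfl⟩ := hs
    refine ⟨dirSet (M i) (σ i), ind_dirSet (hM i) _ hS'S, ?_⟩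
    have h1 := hσc i
    have h2 : ((m : ℝ) * Fintype.card Γ) < ((j + 2) * m + 1) * (dirSet (M i) (σ i)).card := by
      refine lt_of_lt_of_le ?_ (mul_le_mul_of_nonneg_left h1 (by positivity))
      rw [← mul_assoc]
      apply mul_lt_mul_of_pos_right _ hn
      rw [div_lt_iff₀ (by positivity)] at hc
      rw [← mul_div_assoc, lt_div_iff₀ hq0]
      linarith
    exact_mod_cast h2
  have hbound := hmain Γ S' hX
  have hfib : (t : ℝ) ≤ q / (2 * c) * S'.card := by
    have h1 : (univ : Finset (Fin t)).card = ∑ s ∈ S', (univ.filter fun i => σ i = s).card :=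
      card_eq_sum_card_fiberwise (fun i _ => by rw [hS']; exact mem_image_of_mem _ (mem_univ i))
    rw [card_univ, Fintype.card_fin] at h1
    calc (t : ℝ) = ((∑ s ∈ S', (univ.filter fun i => σ i = s).card : ℕ) : ℝ) := by
          exact_mod_cast h1
      _ = ∑ s ∈ S', ((univ.filter fun i => σ i = s).card : ℝ) := by push_cast; rfl
      _ ≤ ∑ s ∈ S', (q / (2 * c) : ℝ) := by
          apply sum_le_sum
          intro s _
          have h2 := fiber_bound hdis s (univ.filter fun i => σ i = s) (a := 2 * c / q)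
            (by positivity) (fun i hi => by
              rw [mem_filter] at hi
              rw [← hi.2]
              exact hσc i)
          rwa [one_div_div] at h2
      _ = q / (2 * c) * S'.card := by rw [sum_const, nsmul_eq_mul]; ring
  have hθ : (0 : ℝ) ≤ 1 - ((m : ℝ) / (m + 1)) / 2 ^ j := by
    rw [sub_nonneg, div_le_one (by positivity)]
    have h1 : (m : ℝ) / (m + 1) ≤ 1 := by
      rw [div_le_one (by positivity)]
      linarith
    exact h1.trans (one_le_pow₀ (by norm_num))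
  calc (t : ℝ) ≤ q / (2 * c) * S'.card := hfib
    _ ≤ q / (2 * c) * (C * (Fintype.card Γ : ℝ) ^ (1 - ((m : ℝ) / (m + 1)) / 2 ^ j)) :=
        mul_le_mul_of_nonneg_left hbound (by positivity)
    _ ≤ q / (2 * c) * (C * (2 * Fintype.card Γ : ℝ) ^ (1 - ((m : ℝ) / (m + 1)) / 2 ^ j)) := by
        apply mul_le_mul_of_nonneg_left _ (by positivity)
        apply mul_le_mul_of_nonneg_left _ hC
        exact Real.rpow_le_rpow hn.le (by linarith) hθ
    _ = _ := by ring

end Pool.Agent.H22.TRS
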