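import Pool.Agent.H22.TRS.Words

/-!
# The bound for the number of directions
-/

namespace Pool.Agent.H22.TRS

open Finset
open scoped Pointwise

universe u

theorem base_bound {Γ : Type u} [Group Γ] [Fintype Γ] [DecidableEq Γ] {S T A : Finset Γ}
    (h : Str S T A) {m : ℕ}
    (hX : ∀ s ∈ S, ∃ X : Finset Γ, Ind S s X ∧
      m * Fintype.card Γ < ((T.card + 2) * m + 1) * X.card) :
    (A.card : ℝ) ≤ (2 * T.card + 1) * (2 * (m + 1)) * (Fintype.card Γ : ℝ) ^ (1 / ((m : ℝ) + 1)) := by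
  obtain ⟨A', hA', hfree, hcard⟩ := exists_free T A h.one
  have hodd := odd_of_str (h.mono hA') m hfree (fun s hs => hX s (h.sub (hA' hs)))
  set c := A'.card / (m + 1) with hc
  obtain ⟨⟨P, hP, -⟩, -⟩ := words hodd c (m + 1) le_rfl A' (Subset.refl _)
    (Nat.mul_div_le _ _)
  have h1 : c ^ (m + 1) ≤ Fintype.card Γ := hP ▸ card_le_univ P
  have hn : 1 ≤ Fintype.card Γ := Fintype.card_pos
  have h2 : (c : ℝ) ≤ (Fintype.card Γ : ℝ) ^ (1 / ((m : ℝ) + 1)) := by
    have h3 : ((c : ℝ) ^ (m + 1)) ≤ Fintype.card Γ := by exact_mod_cast h1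
    have h4 : (c : ℝ) = ((c : ℝ) ^ (m + 1)) ^ (1 / ((m : ℝ) + 1)) := by
      rw [← Real.rpow_natCast, ← Real.rpow_mul (Nat.cast_nonneg _)]
      push_cast
      rw [mul_one_div_cancel (by positivity), Real.rpow_one]
    rw [h4]
    exact Real.rpow_le_rpow (by positivity) h3 (by positivity)
  have h3 : (1 : ℝ) ≤ (Fintype.card Γ : ℝ) ^ (1 / ((m : ℝ) + 1)) :=
    Real.one_le_rpow (by exact_mod_cast hn) (by positivity)
  have h4 : A'.card ≤ (m + 1) * (c + 1) := by
    have := Nat.lt_mul_div_succ A'.card (Nat.succ_pos m)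
    rw [← hc] at this
    exact this.le
  have h5 : (A'.card : ℝ) ≤ (m + 1) * (c + 1) := by exact_mod_cast h4
  have h6 : (A.card : ℝ) ≤ (2 * T.card + 1) * A'.card := by exact_mod_cast hcard
  have h7 : (A'.card : ℝ) ≤ (2 * (m + 1)) * (Fintype.card Γ : ℝ) ^ (1 / ((m : ℝ) + 1)) := by
    refine h5.trans ?_
    have : (0 : ℝ) ≤ (m : ℝ) + 1 := by positivity
    nlinarith
  calc (A.card : ℝ) ≤ (2 * T.card + 1) * A'.card := h6
    _ ≤ (2 * T.card + 1) * ((2 * (m + 1)) * (Fintype.card Γ : ℝ) ^ (1 / ((m : ℝ) + 1))) :=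
        mul_le_mul_of_nonneg_left h7 (by positivity)
    _ = _ := by ring

theorem dir_bound (j m : ℕ) : ∀ r : ℕ, r ≤ j → ∃ C : ℝ, 0 ≤ C ∧
    ∀ (Γ : Type u) [Group Γ] [Fintype Γ] [DecidableEq Γ] (S T A : Finset Γ), Str S T A →
      T.card + r = j →
      (∀ s ∈ S, ∃ X : Finset Γ, Ind S s X ∧ m * Fintype.card Γ < ((j + 2) * m + 1) * X.card) →
      (A.card : ℝ) ≤ C * (Fintype.card Γ : ℝ) ^ (1 - ((m : ℝ) / (m + 1)) / 2 ^ r) := by
  intro r
  induction r with
  | zero =>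
    intro _
    refine ⟨(2 * j + 1) * (2 * (m + 1)), by positivity, ?_⟩
    intro Γ _ _ _ S T A h hT hX
    rw [Nat.add_zero] at hT
    subst hT
    have h1 := base_bound h hX
    have e : (1 : ℝ) - ((m : ℝ) / (m + 1)) / 2 ^ 0 = 1 / ((m : ℝ) + 1) := by
      rw [pow_zero, div_one]
      field_simp
      ring
    rw [e]
    exact h1
  | succ r ih =>
    intro hr
    obtain ⟨C, hC, hCb⟩ := ih (by omega)
    refine ⟨j + 1 + √C, by positivity, ?_⟩
    intro Γ _ _ _ S T A h hT hX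
    set n : ℝ := (Fintype.card Γ : ℝ) with hn
    have hn1 : 1 ≤ n := by
      rw [hn]
      exact_mod_cast (Fintype.card_pos : 0 < Fintype.card Γ)
    have hn0 : 0 < n := by linarith
    set θ : ℝ := 1 - ((m : ℝ) / (m + 1)) / 2 ^ r with hθ
    set θ' : ℝ := 1 - ((m : ℝ) / (m + 1)) / 2 ^ (r + 1) with hθ'
    have hθθ : θ' + θ' = 1 + θ := by
      rw [hθ, hθ', pow_succ]
      field_simp
      ring
    have hθ0 : 0 ≤ θ' := by
      rw [hθ', sub_nonneg, div_le_one (by positivity)]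
      have h1 : (m : ℝ) / (m + 1) ≤ 1 := by
        rw [div_le_one (by positivity)]
        linarith
      exact h1.trans (one_le_pow₀ (by norm_num))
    have hstep := card_step h (K := C * n ^ θ) (by positivity) (fun T' A' h' hT' _ =>
      hCb Γ S T' A' h' (by omega) hX)
    have hT1 : (T.card : ℝ) + 1 ≤ j + 1 := by
      have : T.card ≤ j := by omega
      have : (T.card : ℝ) ≤ j := by exact_mod_cast this
      linarith
    set y : ℝ := √C * n ^ θ' with hy
    have hy0 : 0 ≤ y := by positivity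
    have hyy : y * y = n * (C * n ^ θ) := by
      rw [hy, mul_mul_mul_comm, Real.mul_self_sqrt hC, ← Real.rpow_add hn0, hθθ, Real.rpow_add hn0,
        Real.rpow_one]
      ring
    rw [← hn, ← hyy] at hstep
    have hone : 1 ≤ n ^ θ' := Real.one_le_rpow hn1 hθ0
    have ha0 : (0 : ℝ) ≤ A.card := Nat.cast_nonneg _
    have hmain : (A.card : ℝ) ≤ (j + 1) + y := by
      by_contra hcon
      push Not at hcon
      have h1 : (A.card : ℝ) * A.card ≤ (j + 1) * A.card + y * y :=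
        hstep.trans (by nlinarith)
      have h2 : y < A.card := by
        have : (0 : ℝ) ≤ j := Nat.cast_nonneg _
        linarith
      nlinarith
    calc (A.card : ℝ) ≤ (j + 1) + y := hmain
      _ ≤ (j + 1) * n ^ θ' + y := by
          have : (0 : ℝ) ≤ (j : ℝ) + 1 := by positivity
          nlinarith
      _ = (j + 1 + √C) * n ^ θ' := by rw [hy]; ring

/-- the number of directions -/
theorem directions (j m : ℕ) : ∃ C : ℝ, 0 ≤ C ∧
    ∀ (Γ : Type u) [Group Γ] [Fintype Γ] [DecidableEq Γ] (S : Finset Γ),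
      (∀ s ∈ S, ∃ X : Finset Γ, Ind S s X ∧ m * Fintype.card Γ < ((j + 2) * m + 1) * X.card) →
      (S.card : ℝ) ≤ C * (Fintype.card Γ : ℝ) ^ (1 - ((m : ℝ) / (m + 1)) / 2 ^ j) := by
  obtain ⟨C, hC, h⟩ := dir_bound j m j le_rfl
  refine ⟨C, hC, fun Γ _ _ _ S hX => h Γ S ∅ S ⟨by simp, Subset.refl _, by simp, by simp⟩ (by simp) hX⟩

end Pool.Agent.H22.TRS
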