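import Pool.Agent.H22.TRS.Core

/-!
# Counting alternating words, choosing good translations
-/

namespace Pool.Agent.H22.TRS

open Finset
open scoped Pointwise

variable {Γ : Type*} [Group Γ] [DecidableEq Γ]

/-- If `Odd' m A`, then there are `c ^ h` alternating words of length `h ≤ m + 1`, if `h c ≤ |A|`. -/
theorem words {m : ℕ} {A : Finset Γ} (hA : Odd' m A) (c : ℕ) : ∀ h : ℕ, h ≤ m + 1 →
    ∀ A₁ ⊆ A, h * c ≤ A₁.card →
    (∃ P : Finset Γ, P.card = c ^ h ∧ ∀ R ∈ P, ∀ R' ∈ P, R * R'⁻¹ ∈ (A₁⁻¹ * A₁) ^ h) ∧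
    (∃ P : Finset Γ, P.card = c ^ h ∧ ∀ R ∈ P, ∀ R' ∈ P, R * R'⁻¹ ∈ (A₁ * A₁⁻¹) ^ h) := by
  intro h
  induction h with
  | zero =>
    intro _ A₁ _ _
    constructor <;> exact ⟨{1}, by simp, by simp⟩
  | succ h ih =>
    intro hm A₁ hA₁ hc
    have hc1 : c ≤ A₁.card := le_trans (by nlinarith) hc
    obtain ⟨C, hCA, hCc⟩ := exists_subset_card_eq hc1
    have hc2 : h * c ≤ (A₁ \ C).card := by
      rw [card_sdiff_of_subset hCA, hCc]
      have : h * c + c = (h + 1) * c := by ring
      omega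
    obtain ⟨⟨P1, hP1, hP1'⟩, ⟨P2, hP2, hP2'⟩⟩ := ih (by omega) (A₁ \ C) (sdiff_subset.trans hA₁) hc2
    have hsub1 : ((A₁ \ C)⁻¹ * (A₁ \ C)) ^ h ⊆ (A₁⁻¹ * A₁) ^ h :=
      pow_subset_pow_left (mul_subset_mul (inv_subset_inv sdiff_subset) sdiff_subset)
    have hsub2 : ((A₁ \ C) * (A₁ \ C)⁻¹) ^ h ⊆ (A₁ * A₁⁻¹) ^ h :=
      pow_subset_pow_left (mul_subset_mul sdiff_subset (inv_subset_inv sdiff_subset))
    have herase : ∀ s ∈ C, A₁ \ C ⊆ A.erase s := by
      intro s hs x hx
      rw [mem_sdiff] at hx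
      rw [mem_erase]
      refine ⟨?_, hA₁ hx.1⟩
      rintro rfl
      exact hx.2 hs
    constructor
    · -- words starting with an inverse
      refine ⟨C⁻¹ * P2, ?_, ?_⟩
      · rw [pow_succ', ← hP2, ← hCc, ← card_inv C, card_mul_iff]
        rintro ⟨a, R⟩ ha ⟨a', R'⟩ ha' he
        simp only [Set.mem_prod, mem_coe] at ha ha'
        obtain ⟨s, hs, rfl⟩ := Finset.mem_inv.1 ha.1
        obtain ⟨s', hs', rfl⟩ := Finset.mem_inv.1 ha'.1
        simp only at he
        by_cases hss : s = s'
        · subst hss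
          rw [mul_right_inj] at he
          rw [he]
        · exfalso
          have h1 : s = (R * R'⁻¹) * s' := by
            have h2 : R = s * (s'⁻¹ * R') := by rw [← he]; group
            rw [h2]
            group
          have h3 := hP2' R ha.2 R' ha'.2
          have h4 : (R * R'⁻¹) * s' ∈ ((A.erase s) * (A.erase s)⁻¹) ^ h * (A.erase s) :=
            mul_mem_mul (pow_subset_pow_left (mul_subset_mul (herase s hs)
              (inv_subset_inv (herase s hs))) h3) (mem_erase.2 ⟨Ne.symm hss, hA₁ (hCA hs')⟩)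
          rw [← h1, mul_pow_mul] at h4
          exact hA s (hA₁ (hCA hs)) h (by omega) h4
      · intro R hR R' hR'
        obtain ⟨a, ha, r, hr, rfl⟩ := Finset.mem_mul.1 hR
        obtain ⟨a', ha', r', hr', rfl⟩ := Finset.mem_mul.1 hR'
        obtain ⟨s, hs, rfl⟩ := Finset.mem_inv.1 ha
        obtain ⟨s', hs', rfl⟩ := Finset.mem_inv.1 ha'
        have e : s⁻¹ * r * (s'⁻¹ * r')⁻¹ = s⁻¹ * ((r * r'⁻¹) * s') := by group
        rw [e, pow_succ, ← mul_assoc ((A₁⁻¹ * A₁) ^ h), mul_pow_mul, mul_assoc]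
        exact mul_mem_mul (Finset.inv_mem_inv (hCA hs)) (mul_mem_mul (hsub2 (hP2' r hr r' hr'))
          (hCA hs'))
    · refine ⟨C * P1, ?_, ?_⟩
      · rw [pow_succ', ← hP1, ← hCc, card_mul_iff]
        rintro ⟨s, R⟩ ha ⟨s', R'⟩ ha' he
        simp only [Set.mem_prod, mem_coe] at ha ha'
        simp only at he
        by_cases hss : s = s'
        · subst hss
          rw [mul_right_inj] at he
          rw [he]
        · exfalso
          have h1 : s = s' * (R' * R⁻¹) := by
            have h2 : s = s' * R' * R⁻¹ := by rw [← he]; group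
            rw [← mul_assoc]
            exact h2
          apply hA s (hA₁ (hCA ha.1)) h (by omega)
          have h3 := hP1' R' ha'.2 R ha.2
          have h4 := mul_mem_mul (mem_erase.2 ⟨Ne.symm hss, hA₁ (hCA ha'.1)⟩)
            (pow_subset_pow_left (mul_subset_mul (inv_subset_inv (herase s ha.1)) (herase s ha.1)) h3)
          rw [← h1] at h4
          exact h4
      · intro R hR R' hR'
        obtain ⟨s, hs, r, hr, rfl⟩ := Finset.mem_mul.1 hR
        obtain ⟨s', hs', r', hr', rfl⟩ := Finset.mem_mul.1 hR'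
        have e : s * r * (s' * r')⁻¹ = s * ((r * r'⁻¹) * s'⁻¹) := by group
        rw [e, pow_succ, ← mul_assoc ((A₁ * A₁⁻¹) ^ h), mul_pow_mul, mul_assoc]
        exact mul_mem_mul (hCA hs) (mul_mem_mul (hsub1 (hP1' r hr r' hr'))
          (Finset.inv_mem_inv (hCA hs')))

/-- a large subset without relations `g b = s`, `g ∈ T` -/
theorem exists_free (T A : Finset Γ) (hT : (1 : Γ) ∉ T) :
    ∃ A' ⊆ A, (∀ g ∈ T, ∀ b ∈ A', ∀ s ∈ A', g * b ≠ s) ∧ A.card ≤ (2 * T.card + 1) * A'.card := by
  obtain ⟨A', hA', hmax⟩ := (A.powerset.filter fun A' => ∀ g ∈ T, ∀ b ∈ A', ∀ s ∈ A', g * b ≠ s).exists_max_image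
    card ⟨∅, by simp⟩
  rw [mem_filter, mem_powerset] at hA'
  refine ⟨A', hA'.1, hA'.2, ?_⟩
  have hcov : A ⊆ A' ∪ (T * A' ∪ T⁻¹ * A') := by
    intro s hs
    by_contra hcon
    rw [mem_union, mem_union, not_or, not_or] at hcon
    obtain ⟨h1, h2, h3⟩ := hcon
    have hins : insert s A' ∈ A.powerset.filter fun A' => ∀ g ∈ T, ∀ b ∈ A', ∀ s ∈ A', g * b ≠ s := by
      rw [mem_filter, mem_powerset]
      refine ⟨insert_subset hs hA'.1, ?_⟩
      intro g hg b hb c hc heq
      rw [mem_insert] at hb hc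
      rcases hb with rfl | hb
      · rcases hc with rfl | hc
        · have : g = 1 := by
            have h4 : g * c = 1 * c := by rw [heq, one_mul]
            exact mul_right_cancel h4
          exact hT (this ▸ hg)
        · apply h3
          rw [Finset.mem_mul]
          exact ⟨g⁻¹, Finset.inv_mem_inv hg, c, hc, by rw [← heq]; group⟩
      · rcases hc with rfl | hc
        · apply h2
          rw [Finset.mem_mul]
          exact ⟨g, hg, b, hb, heq⟩
        · exact hA'.2 g hg b hb c hc heq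
    have h4 := hmax _ hins
    rw [card_insert_of_notMem h1] at h4
    omega
  have h1 := card_le_card hcov
  have h2 := card_union_le A' (T * A' ∪ T⁻¹ * A')
  have h3 := card_union_le (T * A') (T⁻¹ * A')
  have h4 : (T * A').card ≤ T.card * A'.card := card_mul_le
  have h5 : (T⁻¹ * A').card ≤ T⁻¹.card * A'.card := card_mul_le
  rw [card_inv] at h5
  nlinarith

/-- extending the clique of translations -/
theorem Str.extend {S T A : Finset Γ} (h : Str S T A) {p : Γ} (hp : p ≠ 1) (hp' : p⁻¹ ∉ T) :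
    Str S (insert p (T.image (fun g => g * p))) (A.filter fun s => p * s ∈ A) ∧
      (insert p (T.image (fun g => g * p))).card = T.card + 1 := by
  have hpT : p ∉ T.image (fun g => g * p) := by
    rw [mem_image]
    rintro ⟨g, hg, h1⟩
    have : g = 1 := by
      have h2 : g * p = 1 * p := by rw [h1, one_mul]
      exact mul_right_cancel h2
    exact h.one (this ▸ hg)
  refine ⟨⟨?_, (filter_subset _ _).trans h.sub, ?_, ?_⟩, ?_⟩
  · rw [mem_insert, mem_image, not_or]
    refine ⟨Ne.symm hp, ?_⟩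
    rintro ⟨g, hg, h1⟩
    rw [mul_eq_one_iff_eq_inv] at h1
    exact hp' (h1 ▸ hg)
  · intro g hg s hs
    rw [mem_filter] at hs
    rw [mem_insert, mem_image] at hg
    rcases hg with rfl | ⟨g, hg, rfl⟩
    · exact h.sub hs.2
    · rw [mul_assoc]
      exact h.mem g hg _ hs.2
  · intro g hg g' hg' hne
    rw [mem_insert, mem_image] at hg hg'
    rcases hg with rfl | ⟨g, hg, rfl⟩
    · rcases hg' with rfl | ⟨g', hg', rfl⟩
      · exact absurd rfl hne
      · right
        intro s hs
        rw [mem_filter] at hs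
        rw [mul_inv_cancel_right]
        exact h.mem g' hg' s hs.1
    · rcases hg' with rfl | ⟨g', hg', rfl⟩
      · left
        intro s hs
        rw [mem_filter] at hs
        rw [mul_inv_cancel_right]
        exact h.mem g hg s hs.1
      · have hne' : g ≠ g' := by
          rintro rfl
          exact hne rfl
        refine (h.pair g hg g' hg' hne').imp ?_ ?_
        · intro k s hs
          rw [mem_filter] at hs
          have := k s hs.1
          rwa [show g * p * (g' * p)⁻¹ = g * g'⁻¹ by group]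
        · intro k s hs
          rw [mem_filter] at hs
          have := k s hs.1
          rwa [show g' * p * (g * p)⁻¹ = g' * g⁻¹ by group]
  · rw [card_insert_of_notMem hpT, card_image_of_injective _ (mul_left_injective p)]

/-- double counting: the sum of `|{s ∈ A | p s ∈ A}|` over `p` is `|A| ^ 2` -/
theorem sum_shift [Fintype Γ] (A : Finset Γ) :
    ∑ p : Γ, (A.filter fun s => p * s ∈ A).card = A.card * A.card := by
  simp_rw [card_filter]
  rw [sum_comm]
  have : ∀ s ∈ A, ∑ p : Γ, (if p * s ∈ A then 1 else 0) = A.card := by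
    intro s _
    rw [← card_filter]
    have e : (univ.filter fun p : Γ => p * s ∈ A) = tr A s⁻¹ := by
      ext p
      rw [mem_filter, mem_tr, inv_inv]
      simp
    rw [e, card_tr]
  rw [sum_congr rfl this, sum_const, smul_eq_mul]

/-- one step of the induction -/
theorem card_step [Fintype Γ] {S T A : Finset Γ} (h : Str S T A) {K : ℝ} (hK0 : 0 ≤ K)
    (hK : ∀ T' A', Str S T' A' → T'.card = T.card + 1 → A' ⊆ A → (A'.card : ℝ) ≤ K) :
    (A.card : ℝ) * A.card ≤ (T.card + 1) * A.card + Fintype.card Γ * K := by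
  classical
  have h1 : ((A.card * A.card : ℕ) : ℝ) = ∑ p : Γ, ((A.filter fun s => p * s ∈ A).card : ℝ) := by
    rw [← sum_shift A]
    push_cast
    rfl
  set Bad : Finset Γ := insert 1 T⁻¹ with hBad
  have hBc : Bad.card ≤ T.card + 1 := by
    rw [hBad]
    refine (card_insert_le _ _).trans ?_
    rw [card_inv]
  have h2 : ∑ p ∈ Bad, ((A.filter fun s => p * s ∈ A).card : ℝ) ≤ (T.card + 1) * A.card := by
    calc ∑ p ∈ Bad, ((A.filter fun s => p * s ∈ A).card : ℝ) ≤ ∑ p ∈ Bad, (A.card : ℝ) :=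
          sum_le_sum fun p _ => by exact_mod_cast card_le_card (filter_subset _ _)
      _ = Bad.card * A.card := by rw [sum_const, nsmul_eq_mul]
      _ ≤ (T.card + 1) * A.card := by
          apply mul_le_mul_of_nonneg_right _ (Nat.cast_nonneg _)
          exact_mod_cast hBc
  have hgood : ∀ p ∈ Badᶜ, ((A.filter fun s => p * s ∈ A).card : ℝ) ≤ K := by
    intro p hp
    rw [mem_compl, hBad, mem_insert, not_or, Finset.mem_inv] at hp
    obtain ⟨h3, h4⟩ := h.extend hp.1 (fun h5 => hp.2 ⟨p⁻¹, h5, inv_inv p⟩)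
    exact hK _ _ h3 h4 (filter_subset _ _)
  have h3 : ∑ p ∈ Badᶜ, ((A.filter fun s => p * s ∈ A).card : ℝ) ≤ Fintype.card Γ * K := by
    calc ∑ p ∈ Badᶜ, ((A.filter fun s => p * s ∈ A).card : ℝ) ≤ ∑ p ∈ Badᶜ, K :=
          sum_le_sum hgood
      _ = Badᶜ.card * K := by rw [sum_const, nsmul_eq_mul]
      _ ≤ Fintype.card Γ * K := by
          apply mul_le_mul_of_nonneg_right _ hK0
          exact_mod_cast card_le_univ _
  have h4 := sum_add_sum_compl Bad (fun p => ((A.filter fun s => p * s ∈ A).card : ℝ))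
  rw [← h1] at h4
  push_cast at h4
  linarith

end Pool.Agent.H22.TRS
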